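import Pool.Agent.Q25.UReg6

/-!
# Regular points of arbitrary sets of representations of `n` as a sum of two twin primes, for every even `n`

A representation `n = x + (n - x)` with two twin primes has `x`, `x + 2 σ`, `n - x`, `n - x + 2 τ` prime for some signs
`σ, τ`. For EVERY large even `n`, all signs `σ, τ` for which `3` does not always divide one of the four numbers (such signs
exist for every even `n`) and EVERY set `A` of integers `x` such that none of the four numbers has a prime factor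
`≤ n ^ (1/r)` (for instance the twin primes `x` in the representations of `n`), almost all elements of `A` in every interval
`(u, u + Y]`, `n ^ θ ≤ Y ≤ n`, `Y ≤ u`, are regular points of `A`.
-/

set_option autoImplicit false

namespace Pool.Agent.Results.MP_c6d112_nt.RegularPoints

open Finset
open Pool.Agent.Q25.UReg (Good V N RightOrder ConstantDensity badScales Irregular)

/-- the coefficients of `x`, `x + 2 σ`, `-x + n`, `-x + (n + 2 τ)` -/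
def co : Fin 4 → ℤ := ![1, 1, -1, -1]

/-- the constant terms of `x`, `x + 2 σ`, `-x + n`, `-x + (n + 2 τ)` -/
def ct (n : ℕ) (σ τ : ℤ) : Fin 4 → ℤ := ![0, 2 * σ, (n : ℤ), (n : ℤ) + 2 * τ]

/-- two signs for which `3` does not always divide one of the four numbers -/
def Signs (n : ℕ) (σ τ : ℤ) : Prop :=
  (σ = 1 ∨ σ = -1) ∧ (τ = 1 ∨ τ = -1) ∧
    ∃ x : ℤ, ¬ 3 ∣ x ∧ ¬ 3 ∣ x + 2 * σ ∧ ¬ 3 ∣ (n : ℤ) - x ∧ ¬ 3 ∣ (n : ℤ) - x + 2 * τ

lemma exists_signs (n : ℕ) : ∃ σ τ : ℤ, Signs n σ τ := by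
  have h : n % 3 = 0 ∨ n % 3 = 1 ∨ n % 3 = 2 := by omega
  rcases h with h | h | h
  · exact ⟨1, -1, Or.inl rfl, Or.inr rfl, 2, by omega, by omega, by omega, by omega⟩
  · exact ⟨1, 1, Or.inl rfl, Or.inl rfl, 2, by omega, by omega, by omega, by omega⟩
  · exact ⟨-1, -1, Or.inr rfl, Or.inr rfl, 1, by omega, by omega, by omega, by omega⟩

lemma co_ne (i : Fin 4) : co i ≠ 0 := by
  unfold co
  fin_cases i <;> norm_num

lemma adm (n : ℕ) (hn : Even n) (σ τ : ℤ) (h : Signs n σ τ) (p : ℕ) (hp : p.Prime) :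
    ∃ m : ℤ, ∀ i, ¬ (p : ℤ) ∣ co i * m + ct n σ τ i := by
  obtain ⟨hσ, hτ, x, h1, h2, h3, h4⟩ := h
  have hn2 : (n : ℤ) % 2 = 0 := by
    obtain ⟨m, hm⟩ := hn
    omega
  rcases Nat.lt_or_ge 4 p with h5 | h5
  · apply Pool.Agent.Q25.UReg.adm_small co (ct n σ τ) p hp h5
    have h1 : ¬ (p : ℤ) ∣ 1 := fun h => hp.one_lt.ne' (Nat.dvd_one.1 (by exact_mod_cast h))
    intro i h
    fin_cases i
    · exact h1 h.1
    · exact h1 h.1
    · exact h1 ((dvd_neg).1 h.1)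
    · exact h1 ((dvd_neg).1 h.1)
  · have hp23 : p = 2 ∨ p = 3 := by
      have := hp.two_le
      have h6 : p ≠ 4 := by
        rintro rfl
        exact absurd hp (by norm_num)
      omega
    rcases hp23 with rfl | rfl
    · refine ⟨1, fun i => ?_⟩
      fin_cases i
      · change ¬ ((2 : ℕ) : ℤ) ∣ 1 * 1 + 0
        omega
      · change ¬ ((2 : ℕ) : ℤ) ∣ 1 * 1 + 2 * σ
        omega
      · change ¬ ((2 : ℕ) : ℤ) ∣ (-1) * 1 + (n : ℤ)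
        omega
      · change ¬ ((2 : ℕ) : ℤ) ∣ (-1) * 1 + ((n : ℤ) + 2 * τ)
        omega
    · refine ⟨x, fun i => ?_⟩
      fin_cases i
      · change ¬ ((3 : ℕ) : ℤ) ∣ 1 * x + 0
        omega
      · change ¬ ((3 : ℕ) : ℤ) ∣ 1 * x + 2 * σ
        omega
      · change ¬ ((3 : ℕ) : ℤ) ∣ (-1) * x + (n : ℤ)
        omega
      · change ¬ ((3 : ℕ) : ℤ) ∣ (-1) * x + ((n : ℤ) + 2 * τ)
        omega

lemma two (n : ℕ) (σ τ : ℤ) (h : Signs n σ τ) : Pool.Agent.Q25.UReg.TwoForms co (ct n σ τ) := by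
  obtain ⟨hσ, hτ, -⟩ := h
  refine ⟨0, 1, ?_, ?_⟩
  · rintro ⟨-, h⟩
    change (0 : ℤ) = 2 * σ at h
    omega
  · rintro ⟨h, -⟩
    change (1 : ℤ) = -1 at h
    omega

lemma bounds (n : ℕ) (hn : 2 ≤ n) (σ τ : ℤ) (h : Signs n σ τ) :
    (∀ i, |(co i : ℝ)| ≤ (n : ℝ) ^ (2 : ℝ)) ∧ ∀ i, |(ct n σ τ i : ℝ)| ≤ (n : ℝ) ^ (2 : ℝ) := by
  obtain ⟨hσ, hτ, -⟩ := h
  have hn' : (2 : ℝ) ≤ n := by exact_mod_cast hn
  have e : (n : ℝ) ^ (2 : ℝ) = (n : ℝ) ^ 2 := by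
    rw [show (2 : ℝ) = ((2 : ℕ) : ℝ) by norm_num, Real.rpow_natCast]
  rw [e]
  have h1 : (4 : ℝ) ≤ (n : ℝ) ^ 2 := by nlinarith
  constructor
  · intro i
    have : |(co i : ℝ)| = 1 := by
      unfold co
      fin_cases i <;> simp
    rw [this]
    linarith
  · have hc : ∀ i, |ct n σ τ i| ≤ (n : ℤ) + 2 := by
      intro i
      rw [abs_le]
      fin_cases i
      · change -((n : ℤ) + 2) ≤ 0 ∧ (0 : ℤ) ≤ (n : ℤ) + 2
        omega
      · change -((n : ℤ) + 2) ≤ 2 * σ ∧ 2 * σ ≤ (n : ℤ) + 2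
        omega
      · change -((n : ℤ) + 2) ≤ (n : ℤ) ∧ (n : ℤ) ≤ (n : ℤ) + 2
        omega
      · change -((n : ℤ) + 2) ≤ (n : ℤ) + 2 * τ ∧ (n : ℤ) + 2 * τ ≤ (n : ℤ) + 2
        omega
    intro i
    have h2 : |(ct n σ τ i : ℝ)| ≤ (n : ℝ) + 2 := by exact_mod_cast hc i
    refine h2.trans ?_
    nlinarith

/-- **Regular points of arbitrary sets of representations of `n` as a sum of two twin primes, for every even `n`.** -/
theorem result (θ : ℝ) (hθ : 0 < θ) :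
    (∀ n : ℕ, ∃ σ τ : ℤ, Signs n σ τ) ∧
    ∃ r₀ : ℕ, 2 ≤ r₀ ∧ ∀ r : ℕ, r₀ ≤ r → ∀ ε : ℝ, 0 < ε → ∃ c : ℝ, 0 < c ∧ ∀ δ : ℝ, 0 < δ → ∃ B n₀ : ℕ,
      ∀ n : ℕ, n₀ ≤ n → Even n → ∀ σ τ : ℤ, Signs n σ τ →
        ∀ u Y : ℕ, (n : ℝ) ^ θ ≤ Y → Y ≤ n → Y ≤ u →
          ∀ A : Set ℕ, (∀ x ∈ A, Good co (ct n σ τ) r n x) →
            (N (Irregular A (V co (ct n σ τ) r n) c δ B Y) u (u + Y) : ℝ) ≤ ε * (Y * V co (ct n σ τ) r n) := by
  refine ⟨exists_signs, ?_⟩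
  obtain ⟨r₀, hr₀, h⟩ := Pool.Agent.Q25.UReg.lin_reg2 4 2 θ (by norm_num) hθ
  refine ⟨r₀, hr₀, fun r hr ε hε => ?_⟩
  obtain ⟨c, hc, h1⟩ := h r hr ε hε
  refine ⟨c, hc, fun δ hδ => ?_⟩
  obtain ⟨B, hB⟩ := h1 δ hδ
  obtain ⟨n₀, hn₀⟩ := Filter.eventually_atTop.1 (hB.and (Filter.eventually_ge_atTop 2))
  refine ⟨B, n₀, fun n hn hev σ τ hs u Y hXY hYX hYu A hA => ?_⟩
  obtain ⟨h1, h2⟩ := hn₀ n hn
  exact h1 co (ct n σ τ) co_ne (bounds n h2 σ τ hs).1 (bounds n h2 σ τ hs).2 (adm n hev σ τ hs) (two n σ τ hs)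
    u Y hXY hYX hYu A hA

end Pool.Agent.Results.MP_c6d112_nt.RegularPoints
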