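import Pool.Agent.Q315.RD2

/-!
# Sums of two almost twin primes, the first one with restricted digits

Let `g ≥ 2` be a base and `K` a large number of digits. For every `i < K` let `A i` be an arbitrary non-empty set of digits. Nothing
is assumed about these sets except that they are not too small on average: the number `|A 0| ⋯ |A (K - 1)|` of the integers
`t < g ^ K` whose `i`-th digit belongs to `A i` for all `i < K` is at least `exp (- c K) g ^ K`, where `c > 0` does not depend on the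
base (`Rich`; for example, a digit is missing everywhere and the base is large, or the digits at an arbitrary set of at most `c' K`
places are prescribed).

Let `n` be ANY even number. There are signs `a / 2`, `b / 2` such that `n ≡ a + b` modulo `3`; let `a` and `b` be numbers `2` or `-2`
with this property. Let `[m₀, m₀ + g ^ K)` be an arbitrary interval with `m₀ ≥ 3` and `m₀ + 2 g ^ K + 2 ≤ n ≤ g ^ (E K)`; its length
may be an arbitrarily small power of `n`. The number of the decompositions `n = m + (n - m)` with `m = m₀ + t` for these `t` such that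
`m` and `m + a`, `n - m` and `n - m + b` have at most `r` prime factors, all larger than `g ^ (K / r)`, is at least
`κ V |A 0| ⋯ |A (K - 1)|`, unless there is an obvious obstruction (no digit `d` in `A 0` such that the four numbers for `m = m₀ + d`
are prime to `g`); here `V` is the product of `1 - ν (p) / p` over the primes `p ≤ g ^ K`, where `ν (p)` is the number of the zeros of
`X (X + a) (n - X) (n - X + b)` modulo `p`, the expected order. The number of the `m = m₀ + t` for which the four numbers are primes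
(so that `n` is the sum of the twin primes `m` and `n - m`) is at most `C V |A 0| ⋯ |A (K - 1)|`. The constants are independent of the
sets `A i`, of `n` and of `m₀`.

Proof. The theorem on almost prime values of polynomials at integers with restricted digits, uniform in the polynomial, of the
starting library (`Pool.Agent.Y816.PD.uni_fun`).
-/

set_option autoImplicit false

namespace Pool.Agent.Results.MP_c6d112_nt.RestrictedDigits

open Filter Finset Polynomial
open Pool.Agent.Q315.RD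

/-- The four numbers `m`, `m + a`, `n - m`, `n - m + b` (all of them are natural numbers if `3 ≤ m ≤ n - 3`) have the property
`P`. -/
def All (P : ℕ → Prop) (n : ℕ) (a b : ℤ) (m : ℕ) : Prop :=
  P m ∧ P ((m : ℤ) + a).natAbs ∧ P (n - m) ∧ P ((n : ℤ) - m + b).natAbs

/-- The product of `1 - ν / p` over the primes `p ≤ y`, `ν` the number of the zeros of `X (X + a) (n - X) (n - X + b)` modulo
`p`. -/
noncomputable def V (n : ℕ) (a b : ℤ) (y : ℕ) : ℝ :=
  rootDensity (fun m => (m : ℤ) * (m + a) * (n - m) * (n - m + b)) y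

/-- the forms -/
def F (n m₀ : ℕ) (a b : ℤ) : Fin 4 → ℕ → ℤ :=
  ![fun t => (m₀ : ℤ) + t, fun t => (m₀ : ℤ) + t + a, fun t => (n : ℤ) - (m₀ + t), fun t => (n : ℤ) - (m₀ + t) + b]

/-- the polynomial -/
noncomputable def Q (u v w z : ℤ) : ℤ[X] := (X + C u) * (X + C v) * (X + C w) * (X + C z)

lemma Q_eval (u v w z x : ℤ) : (Q u v w z).eval x = (x + u) * (x + v) * (x + w) * (x + z) := by
  simp [Q]

lemma Q_monic (u v w z : ℤ) : (Q u v w z).Monic :=
  (((monic_X_add_C u).mul (monic_X_add_C v)).mul (monic_X_add_C w)).mul (monic_X_add_C z)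

lemma Q_deg (u v w z : ℤ) : (Q u v w z).natDegree ≤ 4 := by
  have h1 := natDegree_X_add_C u
  have h2 := natDegree_X_add_C v
  have h3 := natDegree_X_add_C w
  have h4 := natDegree_X_add_C z
  have e1 := natDegree_mul_le (p := X + C u) (q := X + C v)
  have e2 := natDegree_mul_le (p := (X + C u) * (X + C v)) (q := X + C w)
  have e3 := natDegree_mul_le (p := (X + C u) * (X + C v) * (X + C w)) (q := X + C z)
  unfold Q
  omega

lemma F_prod (n m₀ : ℕ) (a b : ℤ) (t : ℕ) :
    ∏ i, F n m₀ a b i t = (Q m₀ (m₀ + a) (m₀ - n) (m₀ - n - b)).eval (t : ℤ) := by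
  rw [Q_eval, Fin.prod_univ_four]
  simp only [F, Matrix.cons_val_zero, Matrix.cons_val_one, Matrix.cons_val]
  ring

lemma V_eq (n m₀ : ℕ) (a b : ℤ) (y : ℕ) : rootDensity (fun t => ∏ i, F n m₀ a b i t) y = V n a b y := by
  have h := rootDensity_shift (Q 0 a (-n) (-n - b)) m₀ y
  unfold V
  have h1 : (fun m : ℕ => (Q 0 a (-n) (-n - b)).eval (m : ℤ)) =
      fun m : ℕ => (m : ℤ) * (m + a) * (n - m) * (n - m + b) := by
    funext m
    rw [Q_eval]
    ring
  have h2 : (fun t : ℕ => (Q 0 a (-n) (-n - b)).eval ((m₀ : ℤ) + t)) = fun t : ℕ => ∏ i, F n m₀ a b i t := by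
    funext t
    rw [F_prod, Q_eval, Q_eval]
    ring
  rw [h1, h2] at h
  exact h

lemma adm (n m₀ : ℕ) {a b : ℤ} (ha : a = 2 ∨ a = -2) (hb : b = 2 ∨ b = -2) (hn : Even n) (h3 : (3 : ℤ) ∣ n - a - b)
    (p : ℕ) (hp : p.Prime) : ∃ t : ℕ, ¬ (p : ℤ) ∣ ∏ i, F n m₀ a b i t := by
  rcases Nat.lt_or_ge p 5 with h5 | h5
  · have h2 := hp.two_le
    have h4 : p = 2 ∨ p = 3 := by
      by_contra hcon
      have : p = 4 := by omega
      subst this
      revert hp
      norm_num
    have hpz := Nat.prime_iff_prime_int.1 hp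
    obtain ⟨t, ht⟩ : ∃ t : ℕ, ¬ (p : ℤ) ∣ (m₀ : ℤ) + t ∧ ¬ (p : ℤ) ∣ (m₀ : ℤ) + t + a ∧ ¬ (p : ℤ) ∣ (n : ℤ) - (m₀ + t) ∧
        ¬ (p : ℤ) ∣ (n : ℤ) - (m₀ + t) + b := by
      rcases h4 with rfl | rfl
      · obtain ⟨w, hw⟩ := hn
        refine ⟨m₀ + 1, ?_⟩
        rcases ha with rfl | rfl <;> rcases hb with rfl | rfl <;> push_cast <;> omega
      · refine ⟨2 * m₀ + (a % 3).toNat, ?_⟩
        rcases ha with rfl | rfl <;> rcases hb with rfl | rfl <;> norm_num <;> omega
    refine ⟨t, fun h => ?_⟩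
    rw [Fin.prod_univ_four] at h
    simp only [F, Matrix.cons_val_zero, Matrix.cons_val_one, Matrix.cons_val] at h
    rcases hpz.dvd_or_dvd h with h | h
    · rcases hpz.dvd_or_dvd h with h | h
      · rcases hpz.dvd_or_dvd h with h | h
        · exact ht.1 h
        · exact ht.2.1 h
      · exact ht.2.2.1 h
    · exact ht.2.2.2 h
  · obtain ⟨t, ht⟩ := Pool.Agent.Y816.PD.adm_deg hp (Q m₀ (m₀ + a) (m₀ - n) (m₀ - n - b))
      (by rw [(Q_monic _ _ _ _).leadingCoeff]
          intro h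
          have := Int.eq_one_of_dvd_one (by omega) h
          omega)
      (lt_of_le_of_lt (Q_deg _ _ _ _) (by omega))
    exact ⟨t, by rw [F_prod]; exact ht⟩

/-- **Sums of two almost twin primes, the first one with restricted digits.** -/
theorem result (E : ℕ) :
    ∃ c : ℝ, 0 < c ∧ ∃ r₀ : ℕ, 2 ≤ r₀ ∧ ∀ r : ℕ, r₀ ≤ r → ∀ g : ℕ, 2 ≤ g → ∃ κ C : ℝ, 0 < κ ∧ 0 < C ∧
      ∀ᶠ K : ℕ in atTop, ∀ (n m₀ : ℕ) (a b : ℤ), Even n → (a = 2 ∨ a = -2) → (b = 2 ∨ b = -2) → (3 : ℤ) ∣ n - a - b →
        3 ≤ m₀ → m₀ + 2 * g ^ K + 2 ≤ n → n ≤ g ^ (E * K) → ∀ A : ℕ → Finset ℕ, Rich c g K A →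
        ((∃ d ∈ A 0, All (fun m => m.Coprime g) n a b (m₀ + d)) →
          κ * V n a b (g ^ K) * choices K A ≤ count g K A fun t => All (AlmostPrime (g ^ K) r) n a b (m₀ + t)) ∧
        (count g K A (fun t => All Nat.Prime n a b (m₀ + t)) : ℝ) ≤ C * V n a b (g ^ K) * choices K A := by
  obtain ⟨c, hc, r₀, hr₀, h⟩ := formsZ 4 (4 * (E + 1)) (by norm_num)
  refine ⟨c, hc, r₀, hr₀, fun r hr g hg => ?_⟩
  obtain ⟨κ, C, hκ, hC, h1⟩ := h r hr g hg
  refine ⟨κ, C, hκ, hC, ?_⟩
  filter_upwards [h1, eventually_ge_atTop 1] with K hK hK1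
  intro n m₀ a b hne ha hb h3 hm₀ hmn hn A hA
  have hgK : 2 ≤ g ^ K := (show 2 ≤ g from hg).trans (Nat.le_self_pow (by omega) g)
  have ha2 : -2 ≤ a ∧ a ≤ 2 := by rcases ha with rfl | rfl <;> norm_num
  have hb2 : -2 ≤ b ∧ b ≤ 2 := by rcases hb with rfl | rfl <;> norm_num
  have f0 : ∀ t : ℕ, F n m₀ a b 0 t = (m₀ : ℤ) + t := fun t => rfl
  have f1 : ∀ t : ℕ, F n m₀ a b 1 t = (m₀ : ℤ) + t + a := fun t => rfl
  have f2 : ∀ t : ℕ, F n m₀ a b 2 t = (n : ℤ) - (m₀ + t) := fun t => rfl
  have f3 : ∀ t : ℕ, F n m₀ a b 3 t = (n : ℤ) - (m₀ + t) + b := fun t => rfl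
  have hiff : ∀ (P : ℕ → Prop) (t : ℕ), t < g ^ K → ((∀ i, P (F n m₀ a b i t).natAbs) ↔ All P n a b (m₀ + t)) := by
    intro P t ht
    have e0 : (F n m₀ a b 0 t).natAbs = m₀ + t := by rw [f0]; omega
    have e1 : (F n m₀ a b 1 t).natAbs = (((m₀ + t : ℕ) : ℤ) + a).natAbs := by rw [f1]; push_cast; rfl
    have e2 : (F n m₀ a b 2 t).natAbs = n - (m₀ + t) := by rw [f2]; omega
    have e3 : (F n m₀ a b 3 t).natAbs = ((n : ℤ) - ((m₀ + t : ℕ) : ℤ) + b).natAbs := by rw [f3]; push_cast; rfl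
    unfold All
    rw [← e3, ← e2, ← e1, ← e0]
    constructor
    · intro h
      exact ⟨h 0, h 1, h 2, h 3⟩
    · rintro ⟨h0, h1, h2, h3⟩ i
      fin_cases i
      · exact h0
      · exact h1
      · exact h2
      · exact h3
  have hbound : ∀ t < g ^ K, ∀ i, t ≤ (F n m₀ a b i t).natAbs ∧ (F n m₀ a b i t).natAbs ≤ n := by
    intro t ht i
    fin_cases i
    · have := f0 t
      simp only [Fin.zero_eta] at this ⊢
      omega
    · have := f1 t
      simp only [Fin.mk_one] at this ⊢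
      omega
    · have := f2 t
      simp only [Fin.reduceFinMk] at this ⊢
      omega
    · have := f3 t
      simp only [Fin.reduceFinMk] at this ⊢
      omega
  obtain ⟨hlow, hup⟩ := hK 4 (F n m₀ a b)
    ⟨Q m₀ (m₀ + a) (m₀ - n) (m₀ - n - b), Q_deg _ _ _ _, fun t => (F_prod n m₀ a b t).symm⟩
    (fun p hp => adm n m₀ ha hb hne h3 p hp)
    (fun t ht i => (hbound t ht i).1)
    (fun t ht => by
      calc ∏ i, (F n m₀ a b i t).natAbs ≤ ∏ _i : Fin 4, n := prod_le_prod' fun i _ => (hbound t ht i).2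
        _ = n ^ 4 := by simp
        _ ≤ (g ^ (E * K)) ^ 4 := Nat.pow_le_pow_left hn 4
        _ ≤ g ^ (4 * (E + 1) * K) := by
            rw [← pow_mul]
            exact Nat.pow_le_pow_right (by omega) (by nlinarith)) A hA
  rw [V_eq] at hlow hup
  constructor
  · rintro ⟨d, hd, hd0⟩
    have hdK : d < g ^ K := by
      have := mem_range.1 (hA.1 0 (by omega) hd)
      exact this.trans_le (Nat.le_self_pow (by omega) g)
    exact (hlow ⟨d, hd, (hiff _ d hdK).2 hd0⟩).trans (Nat.cast_le.2 (count_mono fun t ht h => (hiff _ t ht).1 h))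
  · exact le_trans (Nat.cast_le.2 (count_mono fun t ht h => (hiff _ t ht).2 h)) hup

end Pool.Agent.Results.MP_c6d112_nt.RestrictedDigits
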