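import Pool.Agent.Q48.FS.Low
import Pool.Agent.Q48.FS.Main

set_option autoImplicit false

/-!
# Sums of two almost twin primes both of which are sums of two squares

Dubner's conjecture (Q1) asks for twin primes `p`, `q` with `n = p + q`. Let `n = 2 m` with `m` odd and let `σ, τ` be signs with
`3 ∣ n + σ + τ` (such signs exist for every `n`). If `m = x² + y² + z² + w²` then `n = a + b` with the sums of two squares
`a = (x + y)² + (z + w)²` and `b = (x - y)² + (z - w)²`. For all odd squarefree `M ≤ m ^ δ` and every primitive class modulo `M`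
of solutions, the number of the primitive representations of `m` in the class for which none of `a`, `a + 2 σ`, `b`, `b + 2 τ`
has a prime factor `≤ z` (outside `M`) is the expected one up to a factor `1 ± ε`, for all `z ≤ m ^ δ`. So there are at least
`m ^ (4/5)` decompositions of `n` into two sums of two squares `a`, `b` such that `a`, `a + 2 σ`, `b`, `b + 2 τ` have at most `K`
prime factors, all of them large.
-/

namespace Pool.Agent.Results.MP_c6d112_nt.SumsOfTwoSquares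

open Finset
open Pool.Agent.W65.FS (Gl mem_Gl)

/-- the primitive representations of `m` as a sum of four squares in the class of `v` modulo `M` -/
def Rep (m M : ℕ) (v : Fin 4 → ℤ) : Set (Fin 4 → ℤ) :=
  {X | ∑ i, X i ^ 2 = m ∧ (∀ l : ℕ, l.Prime → ∃ i, ¬ (l : ℤ) ∣ X i) ∧ ∀ i, (M : ℤ) ∣ X i - v i}

/-- the first summand -/
def a (X : Fin 4 → ℤ) : ℤ := (X 0 + X 1) ^ 2 + (X 2 + X 3) ^ 2

/-- the second summand -/
def b (X : Fin 4 → ℤ) : ℤ := (X 0 - X 1) ^ 2 + (X 2 - X 3) ^ 2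

/-- the product of the four numbers -/
def f (σ τ : ℤ) (X : Fin 4 → ℤ) : ℤ := a X * (a X + 2 * σ) * (b X * (b X + 2 * τ))

open Classical in
/-- the vectors modulo `l` which are solutions of the equation, not zero, and for which `l` divides one of the four numbers -/
noncomputable def bad (σ τ : ℤ) (m l : ℕ) : Finset (Fin 4 → ℤ) := (Gl m l).filter fun c => (l : ℤ) ∣ f σ τ c

open Classical in
/-- the expected proportion -/
noncomputable def V (σ τ : ℤ) (m M z : ℕ) : ℝ :=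
  ∏ l ∈ (Icc 3 z).filter (fun l => l.Prime ∧ ¬ l ∣ M), (1 - ((bad σ τ m l).card : ℝ) / (Gl m l).card)

open Pool.Agent.W65.FS Pool.Agent.Q48.FS

lemma a_eq (X : Fin 4 → ℤ) : a X = sa X := rfl
lemma b_eq (X : Fin 4 → ℤ) : b X = sb X := rfl

lemma gc_iff (X : Fin 4 → ℤ) : gc X = 1 ↔ ∀ l : ℕ, l.Prime → ∃ i, ¬ (l : ℤ) ∣ X i := by
  constructor
  · intro h1 l hl
    by_contra h2
    push Not at h2
    have h3 := (dvd_gc l X).2 h2
    rw [h1] at h3
    exact hl.one_lt.ne' (Nat.dvd_one.1 h3)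
  · intro h1
    by_contra h2
    obtain ⟨l, hl, hd⟩ := Nat.exists_prime_and_dvd h2
    obtain ⟨i, hi⟩ := h1 l hl
    exact hi ((dvd_gc l X).1 hd i)

lemma Rep_eq (m M : ℕ) (v : Fin 4 → ℤ) : Rep m M v = ((prc m M v : Finset (Fin 4 → ℤ)) : Set (Fin 4 → ℤ)) := by
  ext X
  unfold Rep prc
  rw [Set.mem_ofPred_eq, mem_coe, mem_filter, mem_repsc, gc_iff]
  constructor
  · rintro ⟨h1, h2, h3⟩
    exact ⟨⟨h1, h3⟩, h2⟩
  · rintro ⟨⟨h1, h3⟩, h2⟩
    exact ⟨h1, h2, h3⟩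

lemma Rep_card (m M : ℕ) (v : Fin 4 → ℤ) : (Rep m M v).ncard = (prc m M v).card := by
  rw [Rep_eq m M v, Set.ncard_coe_finset]

lemma ab (m M : ℕ) (v X : Fin 4 → ℤ) (hX : X ∈ Rep m M v) : a X + b X = 2 * m := by
  rw [a_eq, b_eq, sa_add_sb, hX.1]

/-- parity -/
lemma a_odd (m : ℕ) (hm : Odd m) (X : Fin 4 → ℤ) (hX : ∑ i, X i ^ 2 = m) : Odd (a X) ∧ Odd (b X) := by
  have h1 : Odd ((m : ℤ)) := by exact_mod_cast hm
  rw [← hX, Fin.sum_univ_four] at h1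
  unfold a b
  have e1 : (X 0 + X 1) ^ 2 + (X 2 + X 3) ^ 2 = (X 0 ^ 2 + X 1 ^ 2 + X 2 ^ 2 + X 3 ^ 2) + 2 * (X 0 * X 1 + X 2 * X 3) := by ring
  have e2 : (X 0 - X 1) ^ 2 + (X 2 - X 3) ^ 2 = (X 0 ^ 2 + X 1 ^ 2 + X 2 ^ 2 + X 3 ^ 2) + 2 * (-(X 0 * X 1 + X 2 * X 3)) := by ring
  rw [e1, e2]
  exact ⟨h1.add_even (even_two_mul _), h1.add_even (even_two_mul _)⟩

lemma f_congr (σ τ : ℤ) (l : ℕ) (X Y : Fin 4 → ℤ) (h : ∀ i, (l : ℤ) ∣ X i - Y i) : (l : ℤ) ∣ f σ τ X - f σ τ Y := by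
  have h1 := sa_congr l X Y h
  have h2 := sb_congr l X Y h
  unfold f
  rw [a_eq, b_eq, a_eq, b_eq]
  have e : sa X * (sa X + 2 * σ) * (sb X * (sb X + 2 * τ)) - sa Y * (sa Y + 2 * σ) * (sb Y * (sb Y + 2 * τ)) =
      (sa X - sa Y) * ((sa X + sa Y + 2 * σ) * (sb X * (sb X + 2 * τ))) +
      (sb X - sb Y) * ((sb X + sb Y + 2 * τ) * (sa Y * (sa Y + 2 * σ))) := by ring
  rw [e]
  exact dvd_add (h1.mul_right _) (h2.mul_right _)

lemma not_two_dvd (σ τ : ℤ) (m : ℕ) (hm : Odd m) (X : Fin 4 → ℤ) (hX : ∑ i, X i ^ 2 = m) : ¬ (2 : ℤ) ∣ f σ τ X := by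
  obtain ⟨h1, h2⟩ := a_odd m hm X hX
  have h3 : Odd (f σ τ X) := by
    unfold f
    exact (h1.mul (h1.add_even (even_two_mul _))).mul (h2.mul (h2.add_even (even_two_mul _)))
  intro h4
  exact (Int.not_even_iff_odd.2 h3) (even_iff_two_dvd.2 h4)

lemma card_bad (σ τ : ℤ) (m l : ℕ) (hl : l.Prime) (hl2 : l ≠ 2) : (bad σ τ m l).card ≤ 16 * l ^ 2 := by
  classical
  have hp := Nat.prime_iff_prime_int.1 hl
  have hsub : bad σ τ m l ⊆ ((Gl m l).filter (fun c => (l : ℤ) ∣ sa c - 0) ∪ (Gl m l).filter (fun c => (l : ℤ) ∣ sa c - (-(2 * σ)))) ∪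
      ((Gl m l).filter (fun c => (l : ℤ) ∣ sa c - 2 * m) ∪ (Gl m l).filter (fun c => (l : ℤ) ∣ sa c - (2 * m + 2 * τ))) := by
    intro c hc
    unfold bad at hc
    rw [mem_filter] at hc
    obtain ⟨hc1, hc2⟩ := hc
    have hm := ((mem_Gl m l c).1 hc1).2.1
    have hab := sa_add_sb c
    rw [mem_union, mem_union, mem_union, mem_filter, mem_filter, mem_filter, mem_filter]
    unfold f at hc2
    rw [a_eq, b_eq] at hc2
    rcases hp.dvd_or_dvd hc2 with h | h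
    · rcases hp.dvd_or_dvd h with h | h
      · left; left; exact ⟨hc1, by simpa using h⟩
      · left; right; exact ⟨hc1, by simpa using h⟩
    · rcases hp.dvd_or_dvd h with h | h
      · right; left
        refine ⟨hc1, ?_⟩
        have e : sa c - 2 * m = 2 * ((∑ i, c i ^ 2) - m) - sb c := by linear_combination hab
        rw [e]
        exact dvd_sub (hm.mul_left 2) h
      · right; right
        refine ⟨hc1, ?_⟩
        have e : sa c - (2 * m + 2 * τ) = 2 * ((∑ i, c i ^ 2) - m) - (sb c + 2 * τ) := by linear_combination hab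
        rw [e]
        exact dvd_sub (hm.mul_left 2) h
  have h1 := card_sa m l hl hl2 0
  have h2 := card_sa m l hl hl2 (-(2 * σ))
  have h3 := card_sa m l hl hl2 (2 * m)
  have h4 := card_sa m l hl hl2 (2 * m + 2 * τ)
  have h5 := (card_le_card hsub).trans ((card_union_le _ _).trans (Nat.add_le_add (card_union_le _ _) (card_union_le _ _)))
  linarith

/-- the local condition -/
lemma exists_t (σ τ : ℤ) (hσ : σ = 1 ∨ σ = -1) (hτ : τ = 1 ∨ τ = -1) (m : ℕ) (h3 : (3 : ℤ) ∣ 2 * m + σ + τ) (l : ℕ) (hl : l.Prime)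
    (hl2 : l ≠ 2) : ∃ t : ℤ, ¬ (l : ℤ) ∣ t ∧ ¬ (l : ℤ) ∣ t + 2 * σ ∧ ¬ (l : ℤ) ∣ 2 * m - t ∧ ¬ (l : ℤ) ∣ 2 * m - t + 2 * τ := by
  classical
  by_cases hl3 : l = 3
  · subst hl3
    refine ⟨-σ, ?_, ?_, ?_, ?_⟩
    · rcases hσ with h | h <;> rw [h] <;> norm_num
    · rcases hσ with h | h <;> rw [h] <;> norm_num
    · intro h
      have h4 := dvd_sub h3 h
      have e : 2 * (m : ℤ) + σ + τ - (2 * m - -σ) = τ := by ring
      rw [e] at h4
      rcases hτ with h | h <;> rw [h] at h4 <;> norm_num at h4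
    · intro h
      have h4 := dvd_sub h h3
      have e : 2 * (m : ℤ) - -σ + 2 * τ - (2 * m + σ + τ) = τ := by ring
      rw [e] at h4
      rcases hτ with h | h <;> rw [h] at h4 <;> norm_num at h4
  · have hl5 : 5 ≤ l := by
      have h4 := hl.two_le
      by_contra hcon
      have : l = 4 := by omega
      rw [this] at hl
      exact absurd hl (by norm_num)
    have : Fact l.Prime := ⟨hl⟩
    have hcard : (({0, -(2 * (σ : ZMod l)), 2 * (m : ZMod l), 2 * (m : ZMod l) + 2 * (τ : ZMod l)} : Finset (ZMod l))).card <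
        (univ : Finset (ZMod l)).card := by
      rw [card_univ, ZMod.card]
      exact lt_of_le_of_lt card_le_four (by omega)
    obtain ⟨t, -, ht⟩ := exists_mem_notMem_of_card_lt_card hcard
    simp only [mem_insert, mem_singleton, not_or] at ht
    obtain ⟨h1, h2, h3, h4⟩ := ht
    refine ⟨(t.val : ℤ), ?_, ?_, ?_, ?_⟩
    · rw [← ZMod.intCast_zmod_eq_zero_iff_dvd]
      push_cast
      simpa using h1
    · rw [← ZMod.intCast_zmod_eq_zero_iff_dvd]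
      push_cast
      simp only [ZMod.natCast_val, ZMod.cast_id', id]
      intro h
      exact h2 (by linear_combination h)
    · rw [← ZMod.intCast_zmod_eq_zero_iff_dvd]
      push_cast
      simp only [ZMod.natCast_val, ZMod.cast_id', id]
      intro h
      exact h3 (by linear_combination -h)
    · rw [← ZMod.intCast_zmod_eq_zero_iff_dvd]
      push_cast
      simp only [ZMod.natCast_val, ZMod.cast_id', id]
      intro h
      exact h4 (by linear_combination -h)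

lemma bad_ne (σ τ : ℤ) (hσ : σ = 1 ∨ σ = -1) (hτ : τ = 1 ∨ τ = -1) (m : ℕ) (h3 : (3 : ℤ) ∣ 2 * m + σ + τ) (l : ℕ) (hl : l.Prime)
    (hl2 : l ≠ 2) : bad σ τ m l ≠ Gl m l := by
  classical
  obtain ⟨t, h1, h2, h4, h5⟩ := exists_t σ τ hσ hτ m h3 l hl hl2
  obtain ⟨c, hc, hct⟩ := exists_sa m l hl hl2 t h1
  intro heq
  rw [← heq] at hc
  unfold bad at hc
  rw [mem_filter] at hc
  obtain ⟨hc1, hc2⟩ := hc
  have hp := Nat.prime_iff_prime_int.1 hl
  have hm := ((mem_Gl m l c).1 hc1).2.1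
  have hab := sa_add_sb c
  have hbt : (l : ℤ) ∣ sb c - (2 * m - t) := by
    have e : sb c - (2 * m - t) = 2 * ((∑ i, c i ^ 2) - m) - (sa c - t) := by linear_combination hab
    rw [e]
    exact dvd_sub (hm.mul_left 2) hct
  unfold f at hc2
  rw [a_eq, b_eq] at hc2
  rcases hp.dvd_or_dvd hc2 with h | h
  · rcases hp.dvd_or_dvd h with h | h
    · apply h1
      have := dvd_sub h hct
      simpa using this
    · apply h2
      have := dvd_sub h hct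
      have e : sa c + 2 * σ - (sa c - t) = t + 2 * σ := by ring
      rwa [e] at this
  · rcases hp.dvd_or_dvd h with h | h
    · apply h4
      have := dvd_sub h hbt
      have e : sb c - (sb c - (2 * m - t)) = 2 * m - t := by ring
      rwa [e] at this
    · apply h5
      have := dvd_sub h hbt
      have e : sb c + 2 * τ - (sb c - (2 * m - t)) = 2 * m - t + 2 * τ := by ring
      rwa [e] at this

lemma sift_mem (σ τ : ℤ) (m M z : ℕ) (hm : Odd m) (v X : Fin 4 → ℤ) :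
    X ∈ sift m M v z (bad σ τ m) ↔ X ∈ Rep m M v ∧ ∀ l : ℕ, l.Prime → l ≤ z → ¬ l ∣ M → ¬ (l : ℤ) ∣ f σ τ X := by
  rw [Rep_eq m M v, mem_coe]
  unfold sift
  rw [mem_filter]
  refine and_congr_right fun hX => ?_
  have hX' := hX
  unfold prc at hX'
  rw [mem_filter, mem_repsc] at hX'
  constructor
  · intro h l hl hlz hlM hd
    by_cases h2 : l = 2
    · subst h2
      exact not_two_dvd σ τ m hm X hX'.1.1 (by exact_mod_cast hd)
    apply h l (by rw [mem_Pr]; exact ⟨⟨by have := hl.two_le; omega, hlz⟩, hl, hlM⟩)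
    unfold bad
    rw [mem_filter]
    refine ⟨red_mem m l hl X hX'.1.1 hX'.2, ?_⟩
    have h3 := f_congr σ τ l X (red l X) (red_dvd l X)
    have h4 := dvd_sub hd h3
    rwa [sub_sub_cancel] at h4
  · intro h l hl hd
    rw [mem_Pr] at hl
    apply h l hl.2.1 hl.1.2 hl.2.2
    unfold bad at hd
    rw [mem_filter] at hd
    have h3 := f_congr σ τ l X (red l X) (red_dvd l X)
    have h4 := dvd_add h3 hd.2
    rwa [sub_add_cancel] at h4

/-- few representations have a small first summand -/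
lemma small_a (m Z : ℕ) : ((reps m).filter (fun X => a X ≤ Z)).card ≤ 2 * ((2 * Z + 1) ^ 2 * (2 * Nat.sqrt (2 * m) + 1)) := by
  classical
  obtain ⟨S, hS⟩ : ∃ S, S = (reps m).filter (fun X => a X ≤ Z) := ⟨_, rfl⟩
  rw [← hS]
  have hSm : ∀ X ∈ S, ∑ i, X i ^ 2 = m ∧ a X ≤ Z := by
    intro X hX
    rw [hS, mem_filter, mem_reps] at hX
    exact hX
  refine (card_le_mul_card_image (f := fun X : Fin 4 → ℤ => ((X 0 + X 1, X 2 + X 3), X 0 - X 1)) S 2 ?_).trans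
    (Nat.mul_le_mul_left 2 ?_)
  · intro u _
    obtain ⟨F, hF⟩ : ∃ F, F = S.filter (fun X : Fin 4 → ℤ => ((X 0 + X 1, X 2 + X 3), X 0 - X 1) = u) := ⟨_, rfl⟩
    rw [← hF]
    have hFm : ∀ X ∈ F, X ∈ S ∧ X 0 + X 1 = u.1.1 ∧ X 2 + X 3 = u.1.2 ∧ X 0 - X 1 = u.2 := by
      intro X hX
      rw [hF, mem_filter] at hX
      obtain ⟨h1, h2⟩ := hX
      rw [← h2]
      exact ⟨h1, rfl, rfl, rfl⟩
    have hinj : Set.InjOn (fun X : Fin 4 → ℤ => X 2 - X 3) (F : Set (Fin 4 → ℤ)) := by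
      intro X hX Y hY h
      rw [mem_coe] at hX hY
      obtain ⟨-, h1, h2, h3⟩ := hFm X hX
      obtain ⟨-, h1', h2', h3'⟩ := hFm Y hY
      simp only at h
      funext i
      fin_cases i
      · show X 0 = Y 0
        omega
      · show X 1 = Y 1
        omega
      · show X 2 = Y 2
        omega
      · show X 3 = Y 3
        omega
    rw [← card_image_of_injOn hinj]
    rcases F.eq_empty_or_nonempty with h0 | ⟨X0, hX0⟩
    · rw [h0]; simp
    have hsub : F.image (fun X : Fin 4 → ℤ => X 2 - X 3) ⊆ {X0 2 - X0 3, -(X0 2 - X0 3)} := by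
      intro t ht
      obtain ⟨X, hX, rfl⟩ := mem_image.1 ht
      obtain ⟨h0, h1, h2, h3⟩ := hFm X hX
      obtain ⟨h0', h1', h2', h3'⟩ := hFm X0 hX0
      have e1 := (hSm X h0).1
      have e2 := (hSm X0 h0').1
      rw [Fin.sum_univ_four] at e1 e2
      rw [mem_insert, mem_singleton]
      have e3 : (X 2 - X 3) ^ 2 = (X0 2 - X0 3) ^ 2 := by
        have f1 : (X 0 + X 1) = (X0 0 + X0 1) := by rw [h1, h1']
        have f2 : (X 2 + X 3) = (X0 2 + X0 3) := by rw [h2, h2']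
        have f3 : (X 0 - X 1) = (X0 0 - X0 1) := by rw [h3, h3']
        have g1 : (X 0 + X 1) ^ 2 = (X0 0 + X0 1) ^ 2 := by rw [f1]
        have g2 : (X 2 + X 3) ^ 2 = (X0 2 + X0 3) ^ 2 := by rw [f2]
        have g3 : (X 0 - X 1) ^ 2 = (X0 0 - X0 1) ^ 2 := by rw [f3]
        linear_combination 2 * e1 - 2 * e2 - g1 - g2 - g3
      exact sq_eq_sq_iff_eq_or_eq_neg.1 e3
    exact (card_le_card hsub).trans card_le_two
  · refine (card_le_card (t := (Icc (-(Z : ℤ)) Z ×ˢ Icc (-(Z : ℤ)) Z) ×ˢ Icc (-((Nat.sqrt (2 * m) : ℕ) : ℤ)) (Nat.sqrt (2 * m) : ℕ)) ?_).trans ?_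
    · intro u hu
      obtain ⟨X, hX, rfl⟩ := mem_image.1 hu
      obtain ⟨h1, h2⟩ := hSm X hX
      unfold a at h2
      have hle : ∀ t : ℤ, t ^ 2 ≤ Z → -(Z : ℤ) ≤ t ∧ t ≤ Z := by
        intro t ht
        constructor
        · nlinarith
        · nlinarith
      have h3 := hle (X 0 + X 1) (by nlinarith [sq_nonneg (X 2 + X 3)])
      have h4 := hle (X 2 + X 3) (by nlinarith [sq_nonneg (X 0 + X 1)])
      have h5 : (X 0 - X 1).natAbs ≤ Nat.sqrt (2 * m) := by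
        rw [Nat.le_sqrt']
        have h6 : (((X 0 - X 1).natAbs ^ 2 : ℕ) : ℤ) ≤ ((2 * m : ℕ) : ℤ) := by
          push_cast
          rw [sq_abs, ← h1, Fin.sum_univ_four]
          nlinarith [sq_nonneg (X 0 + X 1), sq_nonneg (X 2), sq_nonneg (X 3)]
        exact_mod_cast h6
      rw [mem_product, mem_product, mem_Icc, mem_Icc, mem_Icc]
      exact ⟨⟨h3, h4⟩, by omega, by omega⟩
    · rw [card_product, card_product, Int.card_Icc, Int.card_Icc]
      have e1 : ((Z : ℤ) + 1 - -(Z : ℤ)).toNat = 2 * Z + 1 := by omega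
      have e2 : (((Nat.sqrt (2 * m) : ℕ) : ℤ) + 1 - -((Nat.sqrt (2 * m) : ℕ) : ℤ)).toNat = 2 * Nat.sqrt (2 * m) + 1 := by omega
      rw [e1, e2, pow_two]

/-- few representations have a small second summand -/
lemma small_b (m Z : ℕ) : ((reps m).filter (fun X => b X ≤ Z)).card ≤ 2 * ((2 * Z + 1) ^ 2 * (2 * Nat.sqrt (2 * m) + 1)) := by
  classical
  refine le_trans ?_ (small_a m Z)
  refine card_le_card_of_injOn (fun X => ![X 0, -X 1, X 2, -X 3]) ?_ ?_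
  · intro X hX
    rw [mem_coe, mem_filter, mem_reps] at hX
    rw [mem_coe, mem_filter, mem_reps]
    obtain ⟨h1, h2⟩ := hX
    constructor
    · rw [← h1, Fin.sum_univ_four, Fin.sum_univ_four]
      simp
    · unfold a
      unfold b at h2
      simpa [sub_eq_add_neg] using h2
  · intro X _ Y _ h
    have h0 := congrFun h 0
    have h1 := congrFun h 1
    have h2 := congrFun h 2
    have h3 := congrFun h 3
    simp only [Matrix.cons_val_zero, Matrix.cons_val_one, Matrix.cons_val, neg_inj] at h0 h1 h2 h3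
    funext i
    fin_cases i
    · exact h0
    · exact h1
    · exact h2
    · exact h3

/-- the number of representations with a small summand, in the form needed -/
lemma small_bound (η : ℝ) (hη : 0 < η) (δ : ℝ) (hδ : δ ≤ 1 / 50) : ∃ n₀ : ℕ, ∀ m : ℕ, n₀ ≤ m → ∀ Z : ℕ,
    (Z : ℝ) ≤ (m : ℝ) ^ δ + 2 → 4 * ((((2 * Z + 1) ^ 2 * (2 * Nat.sqrt (2 * m) + 1) : ℕ)) : ℝ) ≤ η * (m : ℝ) ^ (9 / 10 : ℝ) := by
  obtain ⟨n1, hn1⟩ := large_rpow (980 / η) (1 / 5) (by norm_num)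
  refine ⟨n1 + 1, fun m hm Z hZ => ?_⟩
  have hm1 : (1 : ℝ) ≤ m := by exact_mod_cast (show 1 ≤ m by omega)
  have hm0 : (0 : ℝ) < m := by linarith
  have h1 := hn1 m (by omega)
  have h2 : (m : ℝ) ^ δ ≤ (m : ℝ) ^ (1 / 50 : ℝ) := Real.rpow_le_rpow_of_exponent_le hm1 hδ
  have h3 : (1 : ℝ) ≤ (m : ℝ) ^ (1 / 50 : ℝ) := Real.one_le_rpow hm1 (by norm_num)
  have h4 : (2 * (Z : ℝ) + 1) ≤ 7 * (m : ℝ) ^ (1 / 50 : ℝ) := by linarith
  have h5 : ((Nat.sqrt (2 * m) : ℕ) : ℝ) ≤ 2 * (m : ℝ) ^ (1 / 2 : ℝ) := by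
    have h6 : (Nat.sqrt (2 * m)) ^ 2 ≤ 2 * m := Nat.sqrt_le' _
    have h7 : ((Nat.sqrt (2 * m) : ℕ) : ℝ) ^ 2 ≤ 2 * m := by exact_mod_cast h6
    have h8 : ((m : ℝ) ^ (1 / 2 : ℝ)) ^ 2 = m := by
      rw [← Real.rpow_natCast, ← Real.rpow_mul hm0.le]
      norm_num
    have h9 : 0 ≤ (m : ℝ) ^ (1 / 2 : ℝ) := by positivity
    by_contra hcon
    push Not at hcon
    nlinarith [Nat.cast_nonneg (α := ℝ) (Nat.sqrt (2 * m))]
  have h6 : (1 : ℝ) ≤ (m : ℝ) ^ (1 / 2 : ℝ) := Real.one_le_rpow hm1 (by norm_num)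
  have h7 : (2 * ((Nat.sqrt (2 * m) : ℕ) : ℝ) + 1) ≤ 5 * (m : ℝ) ^ (1 / 2 : ℝ) := by linarith
  push_cast
  calc 4 * ((2 * (Z : ℝ) + 1) ^ 2 * (2 * ((Nat.sqrt (2 * m) : ℕ) : ℝ) + 1))
      ≤ 4 * ((7 * (m : ℝ) ^ (1 / 50 : ℝ)) ^ 2 * (5 * (m : ℝ) ^ (1 / 2 : ℝ))) := by gcongr
    _ = 980 * ((m : ℝ) ^ (1 / 50 : ℝ) * (m : ℝ) ^ (1 / 50 : ℝ) * (m : ℝ) ^ (1 / 2 : ℝ)) := by ring
    _ = 980 * (m : ℝ) ^ (27 / 50 : ℝ) := by
        rw [← Real.rpow_add hm0, ← Real.rpow_add hm0]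
        norm_num
    _ ≤ ((m : ℝ) ^ (1 / 5 : ℝ) * η) * (m : ℝ) ^ (27 / 50 : ℝ) := by
        rw [div_le_iff₀ hη] at h1
        gcongr
    _ = η * ((m : ℝ) ^ (1 / 5 : ℝ) * (m : ℝ) ^ (27 / 50 : ℝ)) := by ring
    _ ≤ η * (m : ℝ) ^ (9 / 10 : ℝ) := by
        rw [← Real.rpow_add hm0]
        apply mul_le_mul_of_nonneg_left _ hη.le
        exact Real.rpow_le_rpow_of_exponent_le hm1 (by norm_num)

/-- the four numbers -/
def four (σ τ : ℤ) (X : Fin 4 → ℤ) : Set ℤ := {a X, a X + 2 * σ, b X, b X + 2 * τ}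

lemma forall_four (σ τ : ℤ) (X : Fin 4 → ℤ) (Q : ℤ → Prop) :
    (∀ u ∈ four σ τ X, Q u) ↔ Q (a X) ∧ Q (a X + 2 * σ) ∧ Q (b X) ∧ Q (b X + 2 * τ) := by
  unfold four
  simp

lemma four_dvd (σ τ : ℤ) (X : Fin 4 → ℤ) : ∀ u ∈ four σ τ X, u ∣ f σ τ X := by
  rw [forall_four]
  unfold f
  exact ⟨(dvd_mul_right _ _).mul_right _, (dvd_mul_left _ _).mul_right _, (dvd_mul_right _ _).mul_left _,
    (dvd_mul_left _ _).mul_left _⟩

/-- **The expected number of decompositions into two almost twin primes which are sums of two squares.** -/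
theorem result (ε : ℝ) (hε : 0 < ε) : ∃ δ : ℝ, 0 < δ ∧ ∃ K n₀ : ℕ, ∀ m M : ℕ, Odd m → n₀ ≤ m → Odd M →
    Squarefree M → (M : ℝ) ≤ (m : ℝ) ^ δ → ∀ σ τ : ℤ, (σ = 1 ∨ σ = -1) → (τ = 1 ∨ τ = -1) → (3 : ℤ) ∣ 2 * m + σ + τ →
    ∀ v : Fin 4 → ℤ, (M : ℤ) ∣ (∑ i, v i ^ 2) - m → (∀ l : ℕ, l.Prime → l ∣ M → ∃ i, ¬ (l : ℤ) ∣ v i) →
    -- the representations for which the four numbers have no small prime factors
    (∀ z : ℕ, (z : ℝ) ≤ (m : ℝ) ^ δ → (m : ℝ) ^ (9 / 10 : ℝ) ≤ (Rep m M v).ncard * V σ τ m M z ∧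
      |(({X | X ∈ Rep m M v ∧ ∀ l : ℕ, l.Prime → l ≤ z → ¬ l ∣ M → ¬ (l : ℤ) ∣ f σ τ X} : Set (Fin 4 → ℤ)).ncard : ℝ) -
        (Rep m M v).ncard * V σ τ m M z| ≤ ε * ((Rep m M v).ncard * V σ τ m M z)) ∧
    -- almost twin primes
    ((∀ l : ℕ, l.Prime → l ∣ M → ¬ (l : ℤ) ∣ f σ τ v) →
      (1 - ε) * ((Rep m M v).ncard * V σ τ m M ⌊(m : ℝ) ^ δ⌋₊) ≤ ({X | X ∈ Rep m M v ∧ a X + b X = 2 * m ∧
        ∀ u ∈ four σ τ X, (m : ℝ) ^ δ < u ∧ ArithmeticFunction.cardFactors u.natAbs ≤ K ∧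
          ∀ l : ℕ, l.Prime → (l : ℤ) ∣ u → (m : ℝ) ^ δ < l} : Set (Fin 4 → ℤ)).ncard) ∧
    -- twin primes
    (({X | X ∈ Rep m M v ∧ ∀ u ∈ four σ τ X, Prime u} : Set (Fin 4 → ℤ)).ncard : ℝ) ≤
      (1 + ε) * ((Rep m M v).ncard * V σ τ m M ⌊(m : ℝ) ^ δ⌋₊) := by
  classical
  obtain ⟨δ1, hδ1, n1, h⟩ := fund 16 (ε / 2) (by positivity)
  obtain ⟨δ2, hδ2, n2, h'⟩ := fund_lower 16
  obtain ⟨δ, hδ⟩ : ∃ δ : ℝ, δ = min (min δ1 δ2) (1 / 50) := ⟨_, rfl⟩
  have hδ0 : 0 < δ := by rw [hδ]; positivity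
  have hδl1 : δ ≤ δ1 := by rw [hδ]; exact (min_le_left _ _).trans (min_le_left _ _)
  have hδl2 : δ ≤ δ2 := by rw [hδ]; exact (min_le_left _ _).trans (min_le_right _ _)
  have hδ50 : δ ≤ 1 / 50 := by rw [hδ]; exact min_le_right _ _
  obtain ⟨n3, h''⟩ := small_bound (ε / 2) (by positivity) δ hδ50
  obtain ⟨K, hK⟩ := exists_nat_ge (2 / δ)
  refine ⟨δ, hδ0, K, n1 + n2 + n3 + 100, fun m M hm hn0 hMo hMs hMn σ τ hσ hτ h3 v hv hv2 => ?_⟩
  have hm1 : (1 : ℝ) ≤ m := by exact_mod_cast hm.pos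
  have hm100 : (100 : ℝ) ≤ m := by exact_mod_cast (show 100 ≤ m by omega)
  have hm0 : (0 : ℝ) < m := by linarith
  have hle1 : (m : ℝ) ^ δ ≤ (m : ℝ) ^ δ1 := Real.rpow_le_rpow_of_exponent_le hm1 hδl1
  have hle2 : (m : ℝ) ^ δ ≤ (m : ℝ) ^ δ2 := Real.rpow_le_rpow_of_exponent_le hm1 hδl2
  have hB : ∀ z : ℕ, ∀ l ∈ Pr M z, bad σ τ m l ⊆ Gl m l ∧ (bad σ τ m l).card ≤ 16 * l ^ 2 := by
    intro z l hl
    rw [mem_Pr] at hl
    exact ⟨filter_subset _ _, card_bad σ τ m l hl.2.1 (by omega)⟩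
  have hne : ∀ z : ℕ, ∀ l ∈ Pr M z, bad σ τ m l ≠ Gl m l := by
    intro z l hl
    rw [mem_Pr] at hl
    exact bad_ne σ τ hσ hτ m h3 l hl.2.1 (by omega)
  have hfinR : (Rep m M v).Finite := by
    rw [Rep_eq m M v]
    exact Finset.finite_toSet _
  have hset : ∀ z : ℕ, ({X | X ∈ Rep m M v ∧ ∀ l : ℕ, l.Prime → l ≤ z → ¬ l ∣ M → ¬ (l : ℤ) ∣ f σ τ X} : Set (Fin 4 → ℤ)) =
      ((sift m M v z (bad σ τ m) : Finset (Fin 4 → ℤ)) : Set (Fin 4 → ℤ)) := by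
    intro z
    ext X
    rw [mem_coe, sift_mem σ τ m M z hm v X]
    rfl
  have hVeq : ∀ z : ℕ, V σ τ m M z = Vd m M z (bad σ τ m) := fun z => rfl
  have hmain' : ∀ z : ℕ, (z : ℝ) ≤ (m : ℝ) ^ δ →
      |(({X | X ∈ Rep m M v ∧ ∀ l : ℕ, l.Prime → l ≤ z → ¬ l ∣ M → ¬ (l : ℤ) ∣ f σ τ X} : Set (Fin 4 → ℤ)).ncard : ℝ) -
        (Rep m M v).ncard * V σ τ m M z| ≤ ε / 2 * ((Rep m M v).ncard * V σ τ m M z) := by
    intro z hz
    have h1 := (h m M z hm (by omega) hMo.pos hMo hMs (hMn.trans hle1) (hz.trans hle1) v ⟨hv, hv2⟩).2.2 (bad σ τ m) (hB z)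
    rw [hset, Set.ncard_coe_finset, Rep_card m M v, hVeq]
    exact h1
  have hlow : ∀ z : ℕ, (z : ℝ) ≤ (m : ℝ) ^ δ → (m : ℝ) ^ (9 / 10 : ℝ) ≤ (Rep m M v).ncard * V σ τ m M z := by
    intro z hz
    rw [Rep_card m M v, hVeq]
    exact h' m M z hm (by omega) hMo.pos hMo hMs (hMn.trans hle2) (hz.trans hle2) v ⟨hv, hv2⟩ (bad σ τ m) (hB z) (hne z)
  have hfloor : ((⌊(m : ℝ) ^ δ⌋₊ : ℕ) : ℝ) ≤ (m : ℝ) ^ δ := Nat.floor_le (Real.rpow_nonneg hm0.le _)
  -- the representations with a small summand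
  obtain ⟨Z, hZ⟩ : ∃ Z : ℕ, Z = ⌊(m : ℝ) ^ δ⌋₊ + 2 := ⟨_, rfl⟩
  have hZle : (Z : ℝ) ≤ (m : ℝ) ^ δ + 2 := by
    rw [hZ]
    push_cast
    linarith
  obtain ⟨Sm, hSm⟩ : ∃ Sm : Finset (Fin 4 → ℤ), Sm = (reps m).filter (fun X => a X ≤ Z) ∪ (reps m).filter (fun X => b X ≤ Z) := ⟨_, rfl⟩
  have hSmc : (Sm.card : ℝ) ≤ ε / 2 * ((Rep m M v).ncard * V σ τ m M ⌊(m : ℝ) ^ δ⌋₊) := by
    have h1 := h'' m (by omega) Z hZle
    have h2 : Sm.card ≤ 4 * ((2 * Z + 1) ^ 2 * (2 * Nat.sqrt (2 * m) + 1)) := by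
      rw [hSm]
      refine (card_union_le _ _).trans ?_
      have := small_a m Z
      have := small_b m Z
      omega
    have h3 : (Sm.card : ℝ) ≤ 4 * ((((2 * Z + 1) ^ 2 * (2 * Nat.sqrt (2 * m) + 1) : ℕ)) : ℝ) := by exact_mod_cast h2
    refine h3.trans (h1.trans ?_)
    exact mul_le_mul_of_nonneg_left (hlow _ hfloor) (by positivity)
  have hbig : ∀ X ∈ Rep m M v, X ∉ Sm → ∀ u ∈ four σ τ X, (m : ℝ) ^ δ < u ∧ u ≤ 2 * m + 2 := by
    intro X hX hXS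
    have hXr : X ∈ reps m := (mem_reps m X).2 hX.1
    rw [hSm, mem_union, not_or, mem_filter, mem_filter, not_and, not_and] at hXS
    have ha := hXS.1 hXr
    have hb := hXS.2 hXr
    push Not at ha hb
    have hab := ab m M v X hX
    have h5 : (m : ℝ) ^ δ < (⌊(m : ℝ) ^ δ⌋₊ : ℝ) + 1 := Nat.lt_floor_add_one _
    have key : ∀ u : ℤ, ((⌊(m : ℝ) ^ δ⌋₊ : ℕ) : ℤ) + 1 ≤ u → (m : ℝ) ^ δ < u := by
      intro u hu
      have h6 : (((⌊(m : ℝ) ^ δ⌋₊ : ℕ) : ℝ)) + 1 ≤ u := by exact_mod_cast hu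
      linarith
    rw [hZ] at ha hb
    push_cast at ha hb
    rw [forall_four]
    refine ⟨⟨key _ (by linarith), by linarith⟩, ⟨key _ ?_, ?_⟩, ⟨key _ (by linarith), by linarith⟩, ⟨key _ ?_, ?_⟩⟩
    · rcases hσ with h | h <;> rw [h] <;> linarith
    · rcases hσ with h | h <;> rw [h] <;> linarith
    · rcases hτ with h | h <;> rw [h] <;> linarith
    · rcases hτ with h | h <;> rw [h] <;> linarith
  have hpos : 0 ≤ (Rep m M v).ncard * V σ τ m M ⌊(m : ℝ) ^ δ⌋₊ := le_trans (by positivity) (hlow _ hfloor)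
  have hsub : ∀ A C : Set (Fin 4 → ℤ), C ⊆ Rep m M v → A ⊆ C ∪ (Sm : Set (Fin 4 → ℤ)) → ((A.ncard : ℕ) : ℝ) ≤ (C.ncard : ℝ) + Sm.card := by
    intro A C hC hA
    have h1 := Set.ncard_le_ncard hA ((hfinR.subset hC).union Sm.finite_toSet)
    have h2 := h1.trans (Set.ncard_union_le _ _)
    rw [Set.ncard_coe_finset] at h2
    exact_mod_cast h2
  refine ⟨fun z hz => ⟨hlow z hz, (hmain' z hz).trans ?_⟩, ?_, ?_⟩
  · have := le_trans (by positivity) (hlow z hz)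
    nlinarith
  · intro hvM
    have h1 := (abs_le.1 (hmain' _ hfloor)).1
    have h2 := hsub {X | X ∈ Rep m M v ∧ ∀ l : ℕ, l.Prime → l ≤ ⌊(m : ℝ) ^ δ⌋₊ → ¬ l ∣ M → ¬ (l : ℤ) ∣ f σ τ X}
      {X | X ∈ Rep m M v ∧ a X + b X = 2 * m ∧
        ∀ u ∈ four σ τ X, (m : ℝ) ^ δ < u ∧ ArithmeticFunction.cardFactors u.natAbs ≤ K ∧
          ∀ l : ℕ, l.Prime → (l : ℤ) ∣ u → (m : ℝ) ^ δ < l} (fun X hX => hX.1) (by
      rintro X ⟨hX, hl⟩
      by_cases hXS : X ∈ Sm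
      · exact Or.inr hXS
      left
      refine ⟨hX, ab m M v X hX, fun u hu => ?_⟩
      obtain ⟨hu1, hu2⟩ := hbig X hX hXS u hu
      have hud := four_dvd σ τ X u hu
      have hlarge : ∀ l : ℕ, l.Prime → (l : ℤ) ∣ u → (m : ℝ) ^ δ < l := by
        intro l hlp hd
        have hd' := hd.trans hud
        by_contra hcon
        push Not at hcon
        have h4 : l ≤ ⌊(m : ℝ) ^ δ⌋₊ := Nat.le_floor hcon
        by_cases hlM : l ∣ M
        · apply hvM l hlp hlM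
          have h5 : ∀ i, (l : ℤ) ∣ X i - v i := fun i => (Int.natCast_dvd_natCast.2 hlM).trans (hX.2.2 i)
          have h6 := dvd_sub hd' (f_congr σ τ l X v h5)
          rwa [sub_sub_cancel] at h6
        · exact hl l hlp h4 hlM hd'
      refine ⟨hu1, ?_, hlarge⟩
      have hupos : 0 < u := by
        have h4 : (0 : ℝ) < u := lt_trans (by positivity) hu1
        exact_mod_cast h4
      have h4 := omega_bound ((m : ℝ) ^ δ) (by positivity) u.natAbs (by omega)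
        (fun q hq1 hq2 => (hlarge q hq1 (Int.natCast_dvd.2 hq2)).le)
      by_contra hcon
      push Not at hcon
      have h5 : (m : ℝ) ^ (2 : ℝ) ≤ ((m : ℝ) ^ δ) ^ (ArithmeticFunction.cardFactors u.natAbs) := by
        rw [← Real.rpow_natCast, ← Real.rpow_mul hm0.le]
        apply Real.rpow_le_rpow_of_exponent_le hm1
        rw [div_le_iff₀ hδ0] at hK
        have h6 : (K : ℝ) ≤ ArithmeticFunction.cardFactors u.natAbs := by exact_mod_cast hcon.le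
        nlinarith
      have h6 : (m : ℝ) ^ (2 : ℝ) = (m : ℝ) ^ (2 : ℕ) := by
        rw [← Real.rpow_natCast]; norm_num
      rw [h6] at h5
      have h7 : ((u.natAbs : ℕ) : ℝ) ≤ 2 * m + 2 := by
        have h8 : ((u.natAbs : ℕ) : ℤ) ≤ 2 * m + 2 := by omega
        exact_mod_cast h8
      nlinarith)
    linarith
  · have h1 := (abs_le.1 (hmain' _ hfloor)).2
    have h2 := hsub {X | X ∈ Rep m M v ∧ ∀ u ∈ four σ τ X, Prime u}
      {X | X ∈ Rep m M v ∧ ∀ l : ℕ, l.Prime → l ≤ ⌊(m : ℝ) ^ δ⌋₊ → ¬ l ∣ M → ¬ (l : ℤ) ∣ f σ τ X} (fun X hX => hX.1) (by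
      rintro X ⟨hX, hp⟩
      by_cases hXS : X ∈ Sm
      · exact Or.inr hXS
      left
      refine ⟨hX, fun l hlp hlz _ hd => ?_⟩
      have hb := hbig X hX hXS
      have key : ∀ u ∈ four σ τ X, ¬ (l : ℤ) ∣ u := by
        intro u hu hlu
        have h5 := Int.prime_iff_natAbs_prime.1 (hp u hu)
        have h6 : l ∣ u.natAbs := Int.natCast_dvd.1 hlu
        have h7 := (Nat.prime_dvd_prime_iff_eq hlp h5).1 h6
        have h8 := (hb u hu).1
        have h9 : ((l : ℕ) : ℝ) ≤ (m : ℝ) ^ δ := (Nat.cast_le.2 hlz).trans hfloor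
        have hupos : 0 < u := by
          have h4 : (0 : ℝ) < u := lt_trans (by positivity) h8
          exact_mod_cast h4
        have h10 : u = l := by omega
        rw [h10] at h8
        push_cast at h8
        linarith
      rw [forall_four] at key
      obtain ⟨k1, k2, k3, k4⟩ := key
      have hpl := Nat.prime_iff_prime_int.1 hlp
      unfold f at hd
      rcases hpl.dvd_or_dvd hd with h | h
      · rcases hpl.dvd_or_dvd h with h | h
        · exact k1 h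
        · exact k2 h
      · rcases hpl.dvd_or_dvd h with h | h
        · exact k3 h
        · exact k4 h)
    linarith

end Pool.Agent.Results.MP_c6d112_nt.SumsOfTwoSquares
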